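import Mathlib
import Pool.Agent.V8H27.OM.Asm
import Pool.Agent.V8H85.OM.B

set_option autoImplicit false

/-!
# MP_17f4cb_nt, Q1: a cuspidal `π'` all of whose quadratic twists have vanishing central value

An irreducible cuspidal automorphic representation of `PGL(2)` over the rationals which is unramified at all
finite places and spherical at infinity is the same thing as a Hecke-Maass cusp form `U` of weight zero for
`SL(2,ℤ)` (up to a scalar factor); its standard `L`-function is the continuation of `∑ c(n) n^(-s)`, where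
`c(n)` is the eigenvalue of the Hecke operator `n^(-1/2) ∑_{ad=n} ∑_{b mod d} U((az+b)/d)`. By class field theory
the quadratic extensions `E` of the rationals, real and imaginary, are in bijection with the primitive
quadratic Dirichlet characters `χ` of modulus `q > 1`, with `χ = η_E` and `q = |Δ_E|`, and
`L(s, π' ⊗ η_E)` is the continuation of `∑ c(n) χ(n) n^(-s)`.

We prove that odd Hecke-Maass cusp forms for `SL(2,ℤ)` exist, and that for each of them all the quadratic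
twists have an entire `L`-function which vanishes at `s = 1/2`. So `N_{π'}(x) = 0` for all `x`, and the limit
in Q1 is `0` for the corresponding `π'`, not `1/2`.
-/

open Filter Set
open scoped MatrixGroups Topology ContDiff

namespace Pool.Agent.Results.MP_17f4cb_nt.OddMaassForm

/-- `U` is a Hecke-Maass cusp form of weight zero for `SL(2,ℤ)` with Laplace eigenvalue `lam` and normalised
Hecke eigenvalues `c n`. It is a function of a complex number of which only the values in the upper half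
plane matter. -/
structure IsHeckeMaassCuspForm (U : ℂ → ℂ) (lam : ℝ) (c : ℕ → ℂ) : Prop where
  smooth : ContDiffOn ℝ ∞ U {z : ℂ | 0 < z.im}
  automorphic : ∀ γ : SL(2, ℤ), ∀ z : ℂ, 0 < z.im →
    U (((γ 0 0 : ℂ) * z + (γ 0 1 : ℂ)) / ((γ 1 0 : ℂ) * z + (γ 1 1 : ℂ))) = U z
  laplace : ∀ z : ℂ, 0 < z.im →
    -((z.im : ℂ)) ^ 2 * (deriv (deriv (fun t : ℝ => U (z + (t : ℂ)))) 0 +
      deriv (deriv (fun t : ℝ => U (z + (t : ℂ) * Complex.I))) 0) = lam * U z
  bounded : ∃ B : ℝ, ∀ z : ℂ, 0 < z.im → ‖U z‖ ≤ B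
  cuspidal : ∀ y : ℝ, 0 < y → ∫ x in (0 : ℝ)..1, U ((x : ℂ) + (y : ℂ) * Complex.I) = 0
  hecke : ∀ n : ℕ, 0 < n → ∀ z : ℂ, 0 < z.im → 1 / (Real.sqrt n : ℂ) * ∑ d ∈ n.divisors,
    ∑ b ∈ Finset.range d, U ((((n / d : ℕ) : ℂ) * z + (b : ℂ)) / (d : ℂ)) = c n * U z
  nonzero : ∃ z : ℂ, 0 < z.im ∧ U z ≠ 0

/-- odd forms: `U(-x + i y) = - U(x + i y)` -/
def IsOdd (U : ℂ → ℂ) : Prop := ∀ z : ℂ, 0 < z.im → U (-(starRingEnd ℂ z)) = - U z

/-- `L` is the entire continuation of the Dirichlet series with coefficients `a n` -/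
def IsContinuation (a : ℕ → ℂ) (L : ℂ → ℂ) : Prop :=
  Differentiable ℂ L ∧ ∀ s : ℂ, 2 < s.re → LSeriesSummable a s ∧ L s = LSeries a s

/-- `χ` is a primitive quadratic Dirichlet character of modulus `q > 1`: these are the characters `η_E` of the
quadratic extensions `E` of the rationals, and `q = |Δ_E|` -/
def IsQuadratic (q : ℕ) (χ : DirichletCharacter ℂ q) : Prop := 1 < q ∧ χ.IsPrimitive ∧ χ ^ 2 = 1

/-- the quadratic extensions `E` of the rationals with `|Δ_E| < x`, in terms of their characters -/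
def Ext (x : ℝ) : Set (Σ q : ℕ, DirichletCharacter ℂ q) := {p | (p.1 : ℝ) < x ∧ IsQuadratic p.1 p.2}

/-- the quadratic extensions `E` with `|Δ_E| < x` for which the twist by `η_E` of the form with Hecke
eigenvalues `c` has non-zero central value -/
def ExtNonzero (c : ℕ → ℂ) (x : ℝ) : Set (Σ q : ℕ, DirichletCharacter ℂ q) :=
  {p | p ∈ Ext x ∧ ∃ L : ℂ → ℂ, IsContinuation (fun n => c n * p.2 n) L ∧ L (1 / 2) ≠ 0}

lemma continuation_unique {a : ℕ → ℂ} {L L' : ℂ → ℂ} (h : IsContinuation a L) (h' : IsContinuation a L') :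
    L = L' := by
  have h1 : AnalyticOnNhd ℂ L univ := Complex.analyticOnNhd_univ_iff_differentiable.mpr h.1
  have h2 : AnalyticOnNhd ℂ L' univ := Complex.analyticOnNhd_univ_iff_differentiable.mpr h'.1
  refine h1.eq_of_eventuallyEq h2 (z₀ := 3) ?_
  have h3 : {s : ℂ | 2 < s.re} ∈ 𝓝 (3 : ℂ) :=
    (isOpen_lt continuous_const Complex.continuous_re).mem_nhds (by simp; norm_num)
  filter_upwards [h3] with s hs
  rw [(h.2 s hs).2, (h'.2 s hs).2]

lemma dat {U : ℂ → ℂ} {lam : ℂ} {t : ℕ → ℂ} (h : Pool.Agent.V8H27.OM.Fou.MF U lam t) :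
    ∃ R : ℂ → ℂ, Pool.Agent.V8H85.OMB.Dat U (Pool.Agent.V8H27.OM.Fou.co U 1)
      (Pool.Agent.V8H27.OM.Fou.cc t) R := by
  obtain ⟨R, hR, hR1⟩ := h.recip
  obtain ⟨B, -, hB⟩ := h.bound
  refine ⟨R, ⟨h.smooth.of_le (WithTop.coe_le_coe.mpr le_top), h.inv, fun x y hy => h.fourier x hy,
    fun x y hy => h.fourier' x hy,
    h.cc_bound, h.co_cont, ⟨B, fun y hy => hB 1 y hy⟩, h.decay, hR, hR1⟩⟩

lemma IsHeckeMaassCuspForm.MF {U : ℂ → ℂ} {lam : ℝ} {c : ℕ → ℂ} (h : IsHeckeMaassCuspForm U lam c)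
    (ho : IsOdd U) : Pool.Agent.V8H27.OM.Fou.MF U lam (fun n => (Real.sqrt n : ℂ) * c n) := by
  refine ⟨h.smooth, h.automorphic, ho, h.bounded, h.laplace, fun n hn z hz => ?_, h.nonzero⟩
  have h1 := h.hecke n hn z hz
  have h2 : (Real.sqrt n : ℂ) ≠ 0 := by
    have : (0 : ℝ) < n := by exact_mod_cast hn
    exact_mod_cast (Real.sqrt_pos.mpr this).ne'
  field_simp at h1
  rw [h1]

lemma ofMF {U : ℂ → ℂ} {lam : ℝ} {t : ℕ → ℂ} (h : Pool.Agent.V8H27.OM.Fou.MF U lam t) :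
    IsHeckeMaassCuspForm U lam (fun n => t n / (Real.sqrt n : ℂ)) ∧ IsOdd U := by
  refine ⟨⟨h.smooth, h.inv, h.lap, h.bdd, fun y hy => ?_, fun n hn z hz => ?_, h.ne⟩, h.odd⟩
  · have h1 := h.co_zero hy
    unfold Pool.Agent.V8H27.OM.Fou.co Pool.Agent.V8H27.OM.Fou.ee Pool.Agent.V8H27.OM.Fou.pt at h1
    simpa using h1
  · rw [h.hecke n hn z hz]
    ring

lemma twist_vanish {U : ℂ → ℂ} {lam : ℝ} {c : ℕ → ℂ} (h : IsHeckeMaassCuspForm U lam c) (ho : IsOdd U)
    (q : ℕ) (χ : DirichletCharacter ℂ q) (hχ : IsQuadratic q χ) :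
    ∃ L : ℂ → ℂ, IsContinuation (fun n => c n * χ n) L ∧ L (1 / 2) = 0 := by
  obtain ⟨R, hR⟩ := dat (h.MF ho)
  obtain ⟨L, hL1, hL2, hL3⟩ := Pool.Agent.V8H85.OMB.main hR hχ.1 χ hχ.2.1 hχ.2.2
  refine ⟨L, ⟨hL1, fun s hs => ?_⟩, hL3⟩
  have e : ∀ n : ℕ, n ≠ 0 → Pool.Agent.V8H27.OM.Fou.cc (fun n => (Real.sqrt n : ℂ) * c n) n * χ n =
      c n * χ n := by
    intro n hn
    have h2 : (Real.sqrt n : ℂ) ≠ 0 := by
      have : (0 : ℝ) < n := by exact_mod_cast Nat.pos_of_ne_zero hn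
      exact_mod_cast (Real.sqrt_pos.mpr this).ne'
    rw [Pool.Agent.V8H27.OM.Fou.cc, mul_div_cancel_left₀ _ h2]
  obtain ⟨h3, h4⟩ := hL2 s hs
  exact ⟨(LSeriesSummable_congr s fun {n} hn => e n hn).mp h3,
    h4.trans (LSeries_congr (fun {n} hn => e n hn) s)⟩

lemma ext_finite (x : ℝ) : (Ext x).Finite := by
  have h1 : Ext x ⊆ ⋃ q ∈ (Finset.Icc 1 ⌈x⌉₊ : Set ℕ), (Sigma.mk q '' (univ : Set (DirichletCharacter ℂ q))) := by
    rintro ⟨q, χ⟩ ⟨hq, hq1, -, -⟩
    simp only [mem_iUnion]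
    refine ⟨q, ?_, ⟨χ, mem_univ _, rfl⟩⟩
    have h2 : q ≤ ⌈x⌉₊ := by
      have : (q : ℝ) ≤ ⌈x⌉₊ := hq.le.trans (Nat.le_ceil x)
      exact_mod_cast this
    simp only [Finset.coe_Icc, mem_Icc]
    simp only at hq1
    omega
  refine Set.Finite.subset (Set.Finite.biUnion (Finset.finite_toSet _) fun q hq => ?_) h1
  have : NeZero q := ⟨by simp only [Finset.coe_Icc, mem_Icc] at hq; omega⟩
  exact (Set.finite_univ).image _

lemma ext_nonempty {x : ℝ} (hx : 3 < x) : (Ext x).Nonempty := by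
  set χ : DirichletCharacter ℂ 3 := (quadraticChar (ZMod 3)).ringHomComp (Int.castRingHom ℂ) with hχ
  have h2 : χ (2 : ZMod 3) = -1 := by
    have : quadraticChar (ZMod 3) 2 = -1 := by decide
    rw [hχ, MulChar.ringHomComp_apply, this]
    simp
  have hne : χ ≠ 1 := by
    intro h
    rw [h, MulChar.one_apply (by decide)] at h2
    norm_num at h2
  refine ⟨⟨3, χ⟩, by exact_mod_cast hx, by norm_num, ?_, ?_⟩
  · have h3 := χ.conductor_dvd_level
    rcases (Nat.dvd_prime Nat.prime_three).mp h3 with h4 | h4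
    · exact absurd (χ.eq_one_iff_conductor_eq_one.mpr h4) hne
    · exact h4
  · have h3 := (quadraticChar_isQuadratic (ZMod 3)).comp (Int.castRingHom ℂ)
    exact h3.sq_eq_one

/-- **Disproof of Q1.** Odd Hecke-Maass cusp forms for `SL(2,ℤ)` exist. For each of them and for every
quadratic extension `E` of the rationals, given by its character `η_E`, the twisted `L`-function has an entire
continuation which vanishes at `1/2`; hence `N(x) > 0 = N_{π'}(x)` for all `x > 3`, and `N_{π'}(x) / N(x)` tends to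
`0` and does not tend to `1/2`. -/
theorem result :
    (∃ (U : ℂ → ℂ) (lam : ℝ) (c : ℕ → ℂ), IsHeckeMaassCuspForm U lam c ∧ IsOdd U) ∧
    (∀ (U : ℂ → ℂ) (lam : ℝ) (c : ℕ → ℂ), IsHeckeMaassCuspForm U lam c → IsOdd U →
      (∀ (q : ℕ) (χ : DirichletCharacter ℂ q), IsQuadratic q χ →
        ∃ L : ℂ → ℂ, IsContinuation (fun n => c n * χ n) L ∧ L (1 / 2) = 0) ∧
      (∀ x : ℝ, (ExtNonzero c x).ncard = 0) ∧
      Tendsto (fun x : ℝ => ((ExtNonzero c x).ncard : ℝ) / ((Ext x).ncard : ℝ)) atTop (𝓝 0) ∧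
      ¬ Tendsto (fun x : ℝ => ((ExtNonzero c x).ncard : ℝ) / ((Ext x).ncard : ℝ)) atTop (𝓝 (1 / 2))) ∧
    (∀ x : ℝ, 3 < x → (Ext x).Finite ∧ 0 < (Ext x).ncard) := by
  refine ⟨?_, ?_, ?_⟩
  · obtain ⟨U, lam, t, h⟩ := Pool.Agent.V8H27.OM.exists_MF
    exact ⟨U, lam, _, ofMF h⟩
  · intro U lam c h ho
    have hv := twist_vanish h ho
    have h0 : ∀ x : ℝ, (ExtNonzero c x).ncard = 0 := by
      intro x
      have : ExtNonzero c x = ∅ := by
        rw [eq_empty_iff_forall_notMem]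
        rintro ⟨q, χ⟩ ⟨⟨-, hq⟩, L, hL, hL0⟩
        obtain ⟨L', hL', hL'0⟩ := hv q χ hq
        rw [continuation_unique hL hL'] at hL0
        exact hL0 hL'0
      rw [this, ncard_empty]
    have h1 : Tendsto (fun x : ℝ => ((ExtNonzero c x).ncard : ℝ) / ((Ext x).ncard : ℝ)) atTop (𝓝 0) := by
      simp only [h0, Nat.cast_zero, zero_div]
      exact tendsto_const_nhds
    refine ⟨hv, h0, h1, fun h2 => ?_⟩
    have := tendsto_nhds_unique h1 h2
    norm_num at this
  · intro x hx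
    exact ⟨ext_finite x, (ncard_pos (ext_finite x)).mpr (ext_nonempty hx)⟩

end Pool.Agent.Results.MP_17f4cb_nt.OddMaassForm
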